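import Pool.Agent.Sorted22.Kern

/-! Uniqueness for the integral equation and characterisation of the radius of convergence. -/

open Finset MeasureTheory Filter Topology

namespace Pool.Agent.Sorted22

open Pool.Agent.Sorted94

/-- `exp(-a) k(a,t)` -/
noncomputable def GG (a t : ℝ) : ℝ := Real.exp (-a) * ker a t

/-- its derivative in `a` -/
noncomputable def GG1 (a t : ℝ) : ℝ :=
  Real.exp (-a) * (-(a * hh (a * t)) + (hh (a * t) + a * (hh1 (a * t) * t)))

lemma hasDerivAt_GG (a t : ℝ) : HasDerivAt (fun a => GG a t) (GG1 a t) a := by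
  have h0 : (fun a => GG a t) = fun a => Real.exp (-a) * (a * hh (a * t)) := by
    funext b; rw [GG, ker_eq]
  rw [h0]
  have h1 : HasDerivAt (fun a : ℝ => Real.exp (-a)) (Real.exp (-a) * (-1)) a :=
    (hasDerivAt_neg a).exp
  have h2 : HasDerivAt (fun a : ℝ => a * t) t a := by simpa using (hasDerivAt_id a).mul_const t
  have h3 : HasDerivAt (fun a : ℝ => hh (a * t)) (hh1 (a * t) * t) a :=
    (hasDerivAt_hh (a * t)).comp a h2
  have h4 := h1.mul ((hasDerivAt_id a).mul h3)
  refine h4.congr_deriv ?_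
  simp only [GG1, id, Pi.mul_apply]
  ring

lemma continuous_GG1 : Continuous (fun p : ℝ × ℝ => GG1 p.1 p.2) := by
  unfold GG1
  have h1 := continuous_hh
  have h2 := continuous_hh1
  fun_prop

lemma GG_lip (A T : ℝ) : ∃ L : ℝ, 0 ≤ L ∧ ∀ a ∈ Set.Icc (-A) A, ∀ b ∈ Set.Icc (-A) A,
    ∀ t ∈ Set.Icc 0 T, |GG a t - GG b t| ≤ L * |a - b| := by
  obtain ⟨L, hL⟩ := ((isCompact_Icc (a := -A) (b := A)).prod (isCompact_Icc (a := (0:ℝ)) (b := T))).exists_bound_of_continuousOn
    continuous_GG1.continuousOn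
  refine ⟨max L 0, le_max_right _ _, fun a ha b hb t ht => ?_⟩
  have h := (convex_Icc (-A) A).norm_image_sub_le_of_norm_hasDerivWithin_le
    (f := fun a => GG a t) (f' := fun a => GG1 a t) (C := max L 0)
    (fun x _ => (hasDerivAt_GG x t).hasDerivWithinAt)
    (fun x hx => (hL (x, t) ⟨hx, ht⟩).trans (le_max_left _ _)) hb ha
  simpa [Real.norm_eq_abs] using h

lemma exp_lower {A a b : ℝ} (ha : a ≤ A) (hb : b ≤ A) :
    |a - b| ≤ Real.exp A * |Real.exp (-a) - Real.exp (-b)| := by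
  wlog hab : a ≤ b generalizing a b
  · have := this hb ha (le_of_not_ge hab)
    rw [abs_sub_comm a b, abs_sub_comm (Real.exp (-a))]
    exact this
  have h1 : Real.exp (-b) ≤ Real.exp (-a) := Real.exp_le_exp.mpr (by linarith)
  rw [abs_sub_comm a b, abs_of_nonneg (by linarith : 0 ≤ b - a), abs_of_nonneg (by linarith : 0 ≤ Real.exp (-a) - Real.exp (-b))]
  have h2 : Real.exp (-a) - Real.exp (-b) = Real.exp (-b) * (Real.exp (b - a) - 1) := by
    rw [mul_sub, ← Real.exp_add]; ring_nf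
  have h3 : b - a ≤ Real.exp (b - a) - 1 := by
    have := Real.add_one_le_exp (b - a); linarith
  have h4 : Real.exp A * Real.exp (-b) ≥ 1 := by
    rw [← Real.exp_add]; exact Real.one_le_exp (by linarith)
  rw [h2, ← mul_assoc]
  nlinarith

/-- the equation at `x` -/
def EqAt (a : ℝ → ℝ) (x : ℝ) : Prop :=
  Real.exp (x - a x) = 1 - ∫ y in (0:ℝ)..x, Real.exp (y - a y) * ker (a y) (x - y)

lemma uniq_cont {T : ℝ} {a b : ℝ → ℝ} (ha : Continuous a) (hb : Continuous b)
    (eqa : ∀ x ∈ Set.Icc 0 T, EqAt a x) (eqb : ∀ x ∈ Set.Icc 0 T, EqAt b x) :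
    ∀ x ∈ Set.Icc 0 T, a x = b x := by
  rcases lt_or_ge T 0 with hT | hT
  · intro x hx
    exact absurd (hx.1.trans hx.2) (by linarith)
  obtain ⟨A1, hA1⟩ := (isCompact_Icc (a := (0:ℝ)) (b := T)).exists_bound_of_continuousOn ha.continuousOn
  obtain ⟨A2, hA2⟩ := (isCompact_Icc (a := (0:ℝ)) (b := T)).exists_bound_of_continuousOn hb.continuousOn
  set A := max A1 A2 with hA
  have hAa : ∀ y ∈ Set.Icc 0 T, a y ∈ Set.Icc (-A) A := by
    intro y hy
    have := hA1 y hy
    rw [Real.norm_eq_abs, abs_le] at this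
    have h1 := le_max_left A1 A2
    exact ⟨by linarith [this.1], by linarith [this.2]⟩
  have hAb : ∀ y ∈ Set.Icc 0 T, b y ∈ Set.Icc (-A) A := by
    intro y hy
    have := hA2 y hy
    rw [Real.norm_eq_abs, abs_le] at this
    have h1 := le_max_right A1 A2
    exact ⟨by linarith [this.1], by linarith [this.2]⟩
  obtain ⟨L, hL0, hL⟩ := GG_lip A T
  set δ : ℝ → ℝ := fun y => |a y - b y| with hδ
  have hδc : Continuous δ := (ha.sub hb).abs
  set K : ℝ := Real.exp A * (Real.exp T * L) with hK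
  have hK0 : 0 ≤ K := by positivity
  have key : ∀ x ∈ Set.Icc 0 T, δ x ≤ K * ∫ y in (0:ℝ)..x, δ y := by
    intro x hx
    have h1 := eqa x hx
    have h2 := eqb x hx
    unfold EqAt at h1 h2
    have ca : Continuous fun y => Real.exp (y - a y) * ker (a y) (x - y) := by
      have h3 : Continuous fun y : ℝ => ker (a y) (x - y) :=
        continuous_ker.comp (ha.prodMk (by fun_prop))
      exact (Real.continuous_exp.comp (continuous_id.sub ha)).mul h3
    have cb : Continuous fun y => Real.exp (y - b y) * ker (b y) (x - y) := by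
      have h3 : Continuous fun y : ℝ => ker (b y) (x - y) :=
        continuous_ker.comp (hb.prodMk (by fun_prop))
      exact (Real.continuous_exp.comp (continuous_id.sub hb)).mul h3
    have h3 : Real.exp (x - a x) - Real.exp (x - b x) =
        -∫ y in (0:ℝ)..x, (Real.exp (y - a y) * ker (a y) (x - y) - Real.exp (y - b y) * ker (b y) (x - y)) := by
      rw [intervalIntegral.integral_sub (ca.intervalIntegrable _ _) (cb.intervalIntegrable _ _), h1, h2]
      ring
    have h4 : |Real.exp (x - a x) - Real.exp (x - b x)| ≤ ∫ y in (0:ℝ)..x, Real.exp T * L * δ y := by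
      rw [h3, abs_neg]
      refine (intervalIntegral.abs_integral_le_integral_abs hx.1).trans ?_
      refine intervalIntegral.integral_mono_on hx.1 ((ca.sub cb).abs.intervalIntegrable _ _)
        ((hδc.const_mul _).intervalIntegrable _ _) ?_
      intro y hy
      have hyT : y ∈ Set.Icc 0 T := ⟨hy.1, hy.2.trans hx.2⟩
      have hxy : x - y ∈ Set.Icc 0 T := ⟨by linarith [hy.2], by linarith [hy.1, hx.2]⟩
      have e1 : Real.exp (y - a y) * ker (a y) (x - y) - Real.exp (y - b y) * ker (b y) (x - y) =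
          Real.exp y * (GG (a y) (x - y) - GG (b y) (x - y)) := by
        simp only [GG, sub_eq_add_neg, Real.exp_add]; ring
      rw [e1, abs_mul, abs_of_pos (Real.exp_pos y)]
      have h5 := hL (a y) (hAa y hyT) (b y) (hAb y hyT) (x - y) hxy
      have h6 : Real.exp y ≤ Real.exp T := Real.exp_le_exp.mpr hyT.2
      calc Real.exp y * |GG (a y) (x - y) - GG (b y) (x - y)| ≤ Real.exp T * (L * |a y - b y|) := by
            apply mul_le_mul h6 h5 (abs_nonneg _) (Real.exp_pos _).le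
        _ = Real.exp T * L * δ y := by rw [hδ]; ring
    rw [intervalIntegral.integral_const_mul] at h4
    have h7 : |Real.exp (x - a x) - Real.exp (x - b x)| = Real.exp x * |Real.exp (-a x) - Real.exp (-b x)| := by
      have : Real.exp (x - a x) - Real.exp (x - b x) = Real.exp x * (Real.exp (-a x) - Real.exp (-b x)) := by
        simp only [sub_eq_add_neg, Real.exp_add]; ring
      rw [this, abs_mul, abs_of_pos (Real.exp_pos x)]
    have h8 : |Real.exp (-a x) - Real.exp (-b x)| ≤ |Real.exp (x - a x) - Real.exp (x - b x)| := by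
      rw [h7]
      have := Real.one_le_exp hx.1
      nlinarith [abs_nonneg (Real.exp (-a x) - Real.exp (-b x))]
    have h9 := exp_lower (hAa x hx).2 (hAb x hx).2
    calc δ x ≤ Real.exp A * |Real.exp (-a x) - Real.exp (-b x)| := h9
      _ ≤ Real.exp A * (Real.exp T * L * ∫ y in (0:ℝ)..x, δ y) := by
          apply mul_le_mul_of_nonneg_left (h8.trans h4) (Real.exp_pos _).le
      _ = K * ∫ y in (0:ℝ)..x, δ y := by rw [hK]; ring
  have hder : ∀ x, HasDerivAt (fun x => ∫ y in (0:ℝ)..x, δ y) (δ x) x := fun x =>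
    intervalIntegral.integral_hasDerivAt_right (hδc.intervalIntegrable _ _)
      (hδc.stronglyMeasurableAtFilter _ _) hδc.continuousAt
  have hΔ0 : ∀ x ∈ Set.Icc 0 T, 0 ≤ ∫ y in (0:ℝ)..x, δ y := by
    intro x hx
    exact intervalIntegral.integral_nonneg hx.1 (fun y _ => abs_nonneg _)
  have hgr : ∀ x ∈ Set.Icc 0 T, ∫ y in (0:ℝ)..x, δ y ≤ 0 := by
    intro x hx
    have h := anti_of_hasDerivAt (f := fun x => Real.exp (-(K * x)) * ∫ y in (0:ℝ)..x, δ y)
      (f' := fun x => Real.exp (-(K * x)) * (δ x - K * ∫ y in (0:ℝ)..x, δ y)) hx.1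
      (fun y hy => by
        have h1 : HasDerivAt (fun x : ℝ => -(K * x)) (-K) y :=
          (((hasDerivAt_id y).const_mul K).neg).congr_deriv (by ring)
        refine (h1.exp.mul (hder y)).congr_deriv ?_
        ring)
      (fun y hy => by
        have := key y ⟨hy.1, hy.2.trans hx.2⟩
        exact mul_nonpos_of_nonneg_of_nonpos (Real.exp_pos _).le (by linarith))
    simp only [intervalIntegral.integral_same, mul_zero] at h
    by_contra hcon
    push Not at hcon
    have := mul_pos (Real.exp_pos (-(K * x))) hcon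
    linarith
  intro x hx
  have h1 := key x hx
  have h2 := hgr x hx
  have h3 : δ x ≤ 0 := h1.trans (mul_nonpos_of_nonneg_of_nonpos hK0 h2)
  have h4 : |a x - b x| = 0 := le_antisymm h3 (abs_nonneg _)
  have := abs_eq_zero.mp h4
  linarith

/-- projection on `[0,T]` -/
noncomputable def pr (T x : ℝ) : ℝ := max 0 (min T x)

lemma continuous_pr (T : ℝ) : Continuous (pr T) := by unfold pr; fun_prop

lemma pr_mem {T : ℝ} (hT : 0 ≤ T) (x : ℝ) : pr T x ∈ Set.Icc 0 T :=
  ⟨le_max_left _ _, max_le hT (min_le_left _ _)⟩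

lemma pr_eq {T x : ℝ} (hx : x ∈ Set.Icc 0 T) : pr T x = x := by
  unfold pr
  rw [min_eq_right hx.2, max_eq_right hx.1]

lemma eqAt_pr {T : ℝ} {a : ℝ → ℝ} {x : ℝ} (hx : x ∈ Set.Icc 0 T) (h : EqAt a x) :
    EqAt (fun y => a (pr T y)) x := by
  unfold EqAt at h ⊢
  simp only [pr_eq hx]
  rw [h]
  congr 1
  refine intervalIntegral.integral_congr (fun y hy => ?_)
  rw [Set.uIcc_of_le hx.1] at hy
  simp only [pr_eq (⟨hy.1, hy.2.trans hx.2⟩ : y ∈ Set.Icc 0 T)]

lemma uniq_Icc {T : ℝ} {a b : ℝ → ℝ} (ha : ContinuousOn a (Set.Icc 0 T)) (hb : ContinuousOn b (Set.Icc 0 T))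
    (eqa : ∀ x ∈ Set.Icc 0 T, EqAt a x) (eqb : ∀ x ∈ Set.Icc 0 T, EqAt b x) :
    ∀ x ∈ Set.Icc 0 T, a x = b x := by
  intro x hx
  have hT : 0 ≤ T := hx.1.trans hx.2
  have h := uniq_cont (T := T) (a := fun y => a (pr T y)) (b := fun y => b (pr T y))
    (ha.comp_continuous (continuous_pr T) (pr_mem hT)) (hb.comp_continuous (continuous_pr T) (pr_mem hT))
    (fun y hy => eqAt_pr hy (eqa y hy)) (fun y hy => eqAt_pr hy (eqb y hy)) x hx
  simpa only [pr_eq hx] using h

lemma eqAt_th {x : ℝ} (hx0 : 0 ≤ x) (hx : x < Rad) : EqAt th x := int_eq hx0 hx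

lemma continuousOn_th {T : ℝ} (hT : T < Rad) : ContinuousOn th (Set.Icc 0 T) := by
  obtain ⟨t, ht, hS⟩ := exists_Sm hT
  exact contOn_of_Sm hS ht (fun z hz => hasDerivAt_th hS z hz)

/-- **uniqueness** -/
theorem eq_th {c : ℝ} {a : ℝ → ℝ} (ha : ContinuousOn a (Set.Ico 0 c)) (heq : ∀ x ∈ Set.Ico 0 c, EqAt a x)
    {x : ℝ} (hx0 : 0 ≤ x) (hxc : x < c) (hxR : x < Rad) : a x = th x := by
  refine uniq_Icc (T := x) (ha.mono ?_) (continuousOn_th hxR) ?_ ?_ x ⟨hx0, le_rfl⟩
  · intro y hy; exact ⟨hy.1, hy.2.trans_lt hxc⟩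
  · intro y hy; exact heq y ⟨hy.1, hy.2.trans_lt hxc⟩
  · intro y hy; exact eqAt_th hy.1 (hy.2.trans_lt hxR)

lemma Rad_pos : 0 < Rad := lt_of_lt_of_le (by norm_num) Rad_ge

lemma th_ge_log {z : ℝ} (h0 : 0 ≤ z) (h : z < Rad) : Real.log Rad - Real.log (Rad - z) ≤ th z := by
  have h1 := mono_of_hasDerivAt (f := fun x => th x + Real.log (Rad - x))
    (f' := fun x => w x + (-1) / (Rad - x)) h0
    (fun x hx => by
      obtain ⟨t, ht, hS⟩ := exists_Sm (lt_of_le_of_lt hx.2 h)
      have h2 : HasDerivAt (fun x : ℝ => Rad - x) (-1) x := by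
        simpa using (hasDerivAt_id x).const_sub Rad
      have h3 : Rad - x ≠ 0 := by have := hx.2; linarith
      exact (hasDerivAt_th hS x (by rw [Real.norm_of_nonneg hx.1]; exact ht)).add (h2.log h3))
    (fun x hx => by
      have h2 := w_ge_inv hx.1 (lt_of_le_of_lt hx.2 h)
      have h3 : ps ℝ (V 0) x = w x := rfl
      rw [h3] at h2
      have h4 : (-1) / (Rad - x) = -(1 / (Rad - x)) := by ring
      rw [h4]; linarith)
  simp only [th_zero, sub_zero, zero_add] at h1
  linarith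

lemma tendsto_th : Tendsto th (𝓝[<] Rad) atTop := by
  have h1 : Tendsto (fun z : ℝ => Rad - z) (𝓝[<] Rad) (𝓝[≠] 0) := by
    refine tendsto_nhdsWithin_iff.mpr ⟨?_, ?_⟩
    · have : Tendsto (fun z : ℝ => Rad - z) (𝓝 Rad) (𝓝 (Rad - Rad)) :=
        (continuous_const.sub continuous_id).tendsto Rad
      rw [sub_self] at this
      exact this.mono_left nhdsWithin_le_nhds
    · filter_upwards [self_mem_nhdsWithin] with z hz
      have : z < Rad := hz
      simp only [Set.mem_compl_iff, Set.mem_singleton_iff]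
      intro h; linarith
  have h2 : Tendsto (fun z : ℝ => Real.log Rad - Real.log (Rad - z)) (𝓝[<] Rad) atTop := by
    have h3 := Real.tendsto_log_nhdsNE_zero.comp h1
    have h4 := tendsto_neg_atBot_atTop.comp h3
    have h5 := tendsto_atTop_add_const_left _ (Real.log Rad) h4
    exact h5
  refine tendsto_atTop_mono' _ ?_ h2
  have hm : Set.Ioo 0 Rad ∈ 𝓝[<] Rad := Ioo_mem_nhdsLT Rad_pos
  filter_upwards [hm] with z hz
  exact th_ge_log hz.1.le hz.2

/-- a maximal solution of the integral equation -/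
def IsSol (c : ℝ) (a : ℝ → ℝ) : Prop :=
  0 < c ∧ ContinuousOn a (Set.Ico 0 c) ∧
    (∀ x ∈ Set.Ico 0 c, Real.exp (x - a x) =
      1 - ∫ y in (0:ℝ)..x, Real.exp (y - a y) *
        ∑' m : ℕ, a y ^ (m + 1) * (x - y) ^ m / ((m + 1).factorial * m.factorial)) ∧
    Tendsto a (𝓝[<] c) atTop

theorem isSol_Rad : IsSol Rad th := by
  refine ⟨Rad_pos, ?_, ?_, tendsto_th⟩
  · intro x hx
    obtain ⟨t, ht, hS⟩ := exists_Sm hx.2
    exact (hasDerivAt_th hS x (by rw [Real.norm_of_nonneg hx.1]; exact ht)).continuousAt.continuousWithinAt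
  · intro x hx
    exact int_eq hx.1 hx.2

/-- **the radius of convergence is the blow-up point of the solution of the integral equation** -/
theorem IsSol.eq_Rad {c : ℝ} {a : ℝ → ℝ} (h : IsSol c a) : c = Rad := by
  obtain ⟨hc, hcont, heq, hlim⟩ := h
  have heq' : ∀ x ∈ Set.Ico 0 c, EqAt a x := heq
  rcases lt_trichotomy c Rad with h1 | h1 | h1
  · -- `a = th` on `[0,c)`, bounded
    exfalso
    obtain ⟨t, ht, hS⟩ := exists_Sm h1
    have h2 : Tendsto th (𝓝[<] c) (𝓝 (th c)) :=
      ((hasDerivAt_th hS c (by rw [Real.norm_of_nonneg hc.le]; exact ht)).continuousAt.tendsto).mono_left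
        nhdsWithin_le_nhds
    have h3 : Tendsto a (𝓝[<] c) (𝓝 (th c)) := by
      refine h2.congr' ?_
      have hm : Set.Ioo 0 c ∈ 𝓝[<] c := Ioo_mem_nhdsLT hc
      filter_upwards [hm] with z hz
      exact (eq_th hcont heq' hz.1.le hz.2 (hz.2.trans h1)).symm
    exact not_tendsto_nhds_of_tendsto_atTop hlim _ h3
  · exact h1
  · exfalso
    have h2 : ContinuousAt a Rad := by
      exact hcont.continuousAt (Ico_mem_nhds Rad_pos h1)
    have h3 : Tendsto a (𝓝[<] Rad) (𝓝 (a Rad)) := h2.tendsto.mono_left nhdsWithin_le_nhds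
    have h4 : Tendsto th (𝓝[<] Rad) (𝓝 (a Rad)) := by
      refine h3.congr' ?_
      have hm : Set.Ioo 0 Rad ∈ 𝓝[<] Rad := Ioo_mem_nhdsLT Rad_pos
      filter_upwards [hm] with z hz
      exact eq_th hcont heq' hz.1.le (hz.2.trans h1) hz.2
    exact not_tendsto_nhds_of_tendsto_atTop tendsto_th _ h4

theorem IsSol.eq_th {c : ℝ} {a : ℝ → ℝ} (h : IsSol c a) : ∀ x ∈ Set.Ico 0 c, a x = th x := by
  intro x hx
  have h1 := h.eq_Rad
  exact Sorted22.eq_th h.2.1 h.2.2.1 hx.1 hx.2 (by rw [← h1]; exact hx.2)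

end Pool.Agent.Sorted22
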