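import Pool.Agent.Sorted94.Bounds

/-! The closed nonlinear integral equation for `θ = ∫ w`. -/

open Finset MeasureTheory Filter Topology

namespace Pool.Agent.Sorted22

open Pool.Agent.Sorted94

/-- `w` -/
noncomputable def w (x : ℝ) : ℝ := ps ℝ (V 0) x

/-- `θ` -/
noncomputable def th (x : ℝ) : ℝ := ps ℝ thc x

/-- `u 0 = 1`, `u (n+1) = v_n` -/
noncomputable def u : ℕ → ℝ → ℝ
  | 0, _ => 1
  | n + 1, x => ps ℝ (V n) x

/-- iterated forward differences of `u` -/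
noncomputable def g : ℕ → ℕ → ℝ → ℝ
  | 0, n, x => u n x
  | m + 1, n, x => g m (n + 1) x - g m n x

lemma g_zero (n : ℕ) (x : ℝ) : g 0 n x = u n x := rfl
lemma g_succ (m n : ℕ) (x : ℝ) : g (m + 1) n x = g m (n + 1) x - g m n x := rfl

lemma hasDerivAt_V {t : ℝ} (h : Sm t) (k : ℕ) (z : ℝ) (hz : ‖z‖ < t) :
    HasDerivAt (ps ℝ (V k)) (w z * (∑ j ∈ range (k + 1), ps ℝ (V j) z) + w z - ps ℝ (V (k + 1)) z) z := by
  induction k with
  | zero =>
    have h1 := h.hasDerivAt_D 0 z hz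
    have h2 := h.ps_V_succ 0 z hz.le
    refine h1.congr_deriv ?_
    simp only [zero_add, Finset.sum_range_one]
    rw [w]
    simp only [zero_add] at h2
    rw [h2]
    ring
  | succ k ih =>
    have h1 := h.hasDerivAt_D (k + 1) z hz
    have h2 := h.ps_V_succ (k + 1) z hz.le
    have hn : {z : ℝ | ‖z‖ < t} ∈ 𝓝 z := (isOpen_lt continuous_norm continuous_const).mem_nhds hz
    have h4 : ps ℝ (V (k + 1)) =ᶠ[𝓝 z] (ps ℝ (V k) + ps ℝ (D (k + 1))) := by
      filter_upwards [hn] with y hy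
      exact h.ps_V_succ k y (le_of_lt hy)
    refine ((ih.add h1).congr_of_eventuallyEq h4).congr_deriv ?_
    rw [Finset.sum_range_succ _ (k + 1), h2, w]
    ring

lemma hasDerivAt_u_succ {t : ℝ} (h : Sm t) (n : ℕ) (z : ℝ) (hz : ‖z‖ < t) :
    HasDerivAt (fun x => u (n + 1) x - u n x) (w z * u (n + 1) z - (u (n + 2) z - u (n + 1) z)) z := by
  cases n with
  | zero =>
    have h1 := (hasDerivAt_V h 0 z hz).sub_const 1
    refine h1.congr_deriv ?_
    simp only [u, zero_add, Finset.sum_range_one, w]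
    ring
  | succ n =>
    have h1 := (hasDerivAt_V h (n + 1) z hz).sub (hasDerivAt_V h n z hz)
    refine h1.congr_deriv ?_
    rw [Finset.sum_range_succ _ (n + 1)]
    simp only [u]
    ring

lemma hasDerivAt_g {t : ℝ} (h : Sm t) (m : ℕ) (z : ℝ) (hz : ‖z‖ < t) : ∀ n : ℕ,
    HasDerivAt (g (m + 1) n) (w z * g m (n + 1) z - g (m + 1) (n + 1) z) z := by
  induction m with
  | zero =>
    intro n
    exact hasDerivAt_u_succ h n z hz
  | succ m ih =>
    intro n
    have h1 := (ih (n + 1)).sub (ih n)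
    refine h1.congr_deriv ?_
    simp only [g_succ]
    ring

/-- `k_n = K^n 1` -/
noncomputable def kk (n : ℕ) (x : ℝ) : ℝ := g n 0 x

lemma kk_zero (x : ℝ) : kk 0 x = 1 := rfl
lemma kk_one (x : ℝ) : kk 1 x = w x - 1 := rfl

lemma hasDerivAt_kk {t : ℝ} (h : Sm t) (n : ℕ) (z : ℝ) (hz : ‖z‖ < t) :
    HasDerivAt (kk (n + 1)) (w z * kk n z + (w z - 1) * kk (n + 1) z - kk (n + 2) z) z := by
  refine (hasDerivAt_g h n z hz 0).congr_deriv ?_
  have h1 : g n (0 + 1) z = kk n z + kk (n + 1) z := by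
    simp only [kk, g_succ]; ring
  have h2 : g (n + 1) (0 + 1) z = kk (n + 1) z + kk (n + 2) z := by
    simp only [kk, g_succ]; ring
  rw [h1, h2]
  ring

lemma hasDerivAt_kk_zero (z : ℝ) : HasDerivAt (kk 0) 0 z := hasDerivAt_const z 1

lemma hasDerivAt_th {t : ℝ} (h : Sm t) (z : ℝ) (hz : ‖z‖ < t) : HasDerivAt th (w z) z :=
  h.hasDerivAt_th z hz

/-- coefficients of `exp(-θ τ)` -/
noncomputable def cc (j : ℕ) (x : ℝ) : ℝ := (-th x) ^ j / (j.factorial : ℝ)

lemma cc_zero (x : ℝ) : cc 0 x = 1 := by simp [cc]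
lemma cc_one (x : ℝ) : cc 1 x = -th x := by simp [cc]

lemma hasDerivAt_cc_zero (z : ℝ) : HasDerivAt (cc 0) 0 z := by
  have : cc 0 = fun _ => (1 : ℝ) := by funext x; exact cc_zero x
  rw [this]
  exact hasDerivAt_const z 1

lemma hasDerivAt_cc {t : ℝ} (h : Sm t) (j : ℕ) (z : ℝ) (hz : ‖z‖ < t) :
    HasDerivAt (cc (j + 1)) (-(w z) * cc j z) z := by
  have h1 := ((hasDerivAt_th h z hz).neg.pow (j + 1)).div_const (((j + 1).factorial : ℕ) : ℝ)
  refine h1.congr_deriv ?_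
  rw [cc, Nat.factorial_succ]
  have h2 : ((j.factorial : ℕ) : ℝ) ≠ 0 := by positivity
  have h3 : ((j : ℝ) + 1) ≠ 0 := by positivity
  push_cast
  simp only [Nat.add_sub_cancel, Pi.neg_apply]
  field_simp

/-- `T_n` -/
noncomputable def TT (n : ℕ) (x : ℝ) : ℝ := ∑ p ∈ antidiagonal n, cc p.1 x * kk p.2 x

lemma TT_zero (x : ℝ) : TT 0 x = 1 := by simp [TT, cc_zero, kk_zero]
lemma TT_one (x : ℝ) : TT 1 x = cc 1 x + (w x - 1) := by
  simp only [TT, Finset.Nat.antidiagonal_succ, Finset.Nat.antidiagonal_zero]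
  simp [cc_zero, kk_zero, kk_one]
  ring

lemma TT_sum1 (n : ℕ) (x : ℝ) : ∑ p ∈ antidiagonal n, cc p.1 x * kk (p.2 + 1) x = TT (n + 1) x - cc (n + 1) x := by
  rw [TT, Finset.Nat.sum_antidiagonal_succ' (f := fun p => cc p.1 x * kk p.2 x)]
  simp only [kk_zero, mul_one]
  ring

lemma TT_sum2 (n : ℕ) (x : ℝ) : ∑ p ∈ antidiagonal n, cc p.1 x * kk (p.2 + 2) x =
    TT (n + 2) x - cc (n + 2) x - cc (n + 1) x * (w x - 1) := by
  have h1 := TT_sum1 (n + 1) x
  rw [Finset.Nat.sum_antidiagonal_succ' (f := fun p => cc p.1 x * kk (p.2 + 1) x)] at h1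
  simp only [zero_add, kk_one] at h1
  linarith

lemma hasDerivAt_TT {t : ℝ} (h : Sm t) (n : ℕ) (z : ℝ) (hz : ‖z‖ < t) :
    HasDerivAt (TT n) ((w z - 1) * TT n z - TT (n + 1) z + cc (n + 1) z) z := by
  cases n with
  | zero =>
    have h1 : TT 0 = fun _ => (1 : ℝ) := by funext x; exact TT_zero x
    rw [h1]
    refine (hasDerivAt_const z 1).congr_deriv ?_
    rw [zero_add, TT_one]
    ring
  | succ n =>
    have hcc : ∀ j, ∃ d, HasDerivAt (cc j) d z ∧ d = (if j = 0 then 0 else -(w z) * cc (j - 1) z) := by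
      intro j
      cases j with
      | zero => exact ⟨0, hasDerivAt_cc_zero z, by simp⟩
      | succ j => exact ⟨_, hasDerivAt_cc h j z hz, by simp⟩
    have hkk : ∀ j, ∃ d, HasDerivAt (kk j) d z ∧ d = (if j = 0 then 0 else
        w z * kk (j - 1) z + (w z - 1) * kk j z - kk (j + 1) z) := by
      intro j
      cases j with
      | zero => exact ⟨0, hasDerivAt_kk_zero z, by simp⟩
      | succ j => exact ⟨_, hasDerivAt_kk h j z hz, by simp⟩
    choose dc hdc hdc2 using hcc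
    choose dk hdk hdk2 using hkk
    have h1 : HasDerivAt (TT (n + 1)) (∑ p ∈ antidiagonal (n + 1),
        (dc p.1 * kk p.2 z + cc p.1 z * dk p.2)) z := by
      have := HasDerivAt.fun_sum (u := antidiagonal (n + 1))
        (A := fun (p : ℕ × ℕ) x => cc p.1 x * kk p.2 x)
        (A' := fun p => dc p.1 * kk p.2 z + cc p.1 z * dk p.2) (x := z)
        (fun p _ => (hdc p.1).mul (hdk p.2))
      exact this
    refine h1.congr_deriv ?_
    rw [Finset.sum_add_distrib]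
    rw [Finset.Nat.sum_antidiagonal_succ (f := fun p => dc p.1 * kk p.2 z),
      Finset.Nat.sum_antidiagonal_succ' (f := fun p => cc p.1 z * dk p.2)]
    have e0 : dc 0 = 0 := by rw [hdc2]; simp
    have e1 : dk 0 = 0 := by rw [hdk2]; simp
    have e2 : ∑ p ∈ antidiagonal n, dc (p.1 + 1) * kk p.2 z = -(w z) * TT n z := by
      rw [TT, Finset.mul_sum]
      refine Finset.sum_congr rfl (fun p _ => ?_)
      rw [hdc2]
      simp only [Nat.add_eq_zero_iff, one_ne_zero, and_false, if_false, Nat.add_sub_cancel]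
      ring
    have e3 : ∑ p ∈ antidiagonal n, cc p.1 z * dk (p.2 + 1) =
        w z * TT n z + (w z - 1) * (TT (n + 1) z - cc (n + 1) z) -
          (TT (n + 2) z - cc (n + 2) z - cc (n + 1) z * (w z - 1)) := by
      rw [← TT_sum1, ← TT_sum2, TT, Finset.mul_sum, Finset.mul_sum, ← Finset.sum_add_distrib,
        ← Finset.sum_sub_distrib]
      refine Finset.sum_congr rfl (fun p _ => ?_)
      rw [hdk2]
      simp only [Nat.add_eq_zero_iff, one_ne_zero, and_false, if_false, Nat.add_sub_cancel]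
      ring
    rw [e0, e1, e2, e3]
    ring

/-- `ψ` -/
noncomputable def psi (x : ℝ) : ℝ := Real.exp (x - th x)

lemma hasDerivAt_psi {t : ℝ} (h : Sm t) (z : ℝ) (hz : ‖z‖ < t) :
    HasDerivAt psi ((1 - w z) * psi z) z := by
  have h1 := ((hasDerivAt_id z).sub (hasDerivAt_th h z hz)).exp
  refine h1.congr_deriv ?_
  simp only [psi, Pi.sub_apply, id]
  ring

/-- `P_n` -/
noncomputable def PP (n : ℕ) (x : ℝ) : ℝ := psi x * TT n x

lemma PP_zero (x : ℝ) : PP 0 x = psi x := by rw [PP, TT_zero, mul_one]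

lemma hasDerivAt_PP {t : ℝ} (h : Sm t) (n : ℕ) (z : ℝ) (hz : ‖z‖ < t) :
    HasDerivAt (PP n) (-PP (n + 1) z + psi z * cc (n + 1) z) z := by
  have h1 := (hasDerivAt_psi h z hz).mul (hasDerivAt_TT h n z hz)
  refine h1.congr_deriv ?_
  simp only [PP]
  ring

lemma ps_at_zero (c : ℕ → ℝ) : ps ℝ c 0 = c 0 := by
  unfold ps
  rw [tsum_eq_single 0]
  · simp
  · intro n hn
    simp [hn]

lemma th_zero : th 0 = 0 := by rw [th, ps_at_zero]; rfl

lemma psi_zero : psi 0 = 1 := by simp [psi, th_zero]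

lemma u_at_zero (n : ℕ) : u n 0 = 1 := by
  cases n with
  | zero => rfl
  | succ n => simp only [u]; rw [ps_at_zero, V_k_zero]

lemma g_at_zero (m : ℕ) : ∀ n, g (m + 1) n 0 = 0 := by
  induction m with
  | zero => intro n; rw [g_succ, g_zero, g_zero, u_at_zero, u_at_zero, sub_self]
  | succ m ih => intro n; rw [g_succ, ih, ih, sub_self]

lemma cc_at_zero (n : ℕ) : cc (n + 1) 0 = 0 := by simp [cc, th_zero]

lemma TT_at_zero (n : ℕ) : TT (n + 1) 0 = 0 := by
  rw [TT]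
  refine Finset.sum_eq_zero (fun p hp => ?_)
  rw [Finset.HasAntidiagonal.mem_antidiagonal] at hp
  rcases Nat.eq_zero_or_pos p.1 with h | h
  · have : p.2 = n + 1 := by omega
    rw [this, kk, g_at_zero, mul_zero]
  · obtain ⟨m, hm⟩ : ∃ m, p.1 = m + 1 := ⟨p.1 - 1, by omega⟩
    rw [hm, cc_at_zero, zero_mul]

lemma PP_at_zero (n : ℕ) : PP (n + 1) 0 = 0 := by rw [PP, TT_at_zero, mul_zero]

/-! ### bounds -/

lemma ps_V_le {t : ℝ} (h : Sm t) {z : ℝ} (hz : 0 ≤ z) (hzt : z ≤ t) (k : ℕ) :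
    ps ℝ (V k) z ≤ (1 + w z) ^ (k + 1) := by
  have hzn : ‖z‖ ≤ t := by rw [Real.norm_of_nonneg hz]; exact hzt
  have hw : 1 ≤ w z := one_le_w h hz hzt
  induction k with
  | zero =>
    rw [zero_add, pow_one]
    have : ps ℝ (V 0) z = w z := rfl
    rw [this]; linarith
  | succ k ih =>
    rw [h.ps_V_succ k z hzn]
    have h1 : ps ℝ (D (k + 1)) z ≤ w z * ps ℝ (V k) z := by
      have h2 := ps_mul (𝕜 := ℝ) (h.sV' 0) (h.sV' k) z hzn
      have h3 : w z * ps ℝ (V k) z = ps ℝ (V 0) z * ps ℝ (V k) z := rfl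
      rw [h3, h2]
      have hm := h.mono hz hzt
      exact ps_real_le hz (D_le_conv k) (hm.sD (k + 1)) (summable_conv hm.2 (hm.sV k))
    calc ps ℝ (V k) z + ps ℝ (D (k + 1)) z ≤ (1 + w z) * ps ℝ (V k) z := by linarith
      _ ≤ (1 + w z) * (1 + w z) ^ (k + 1) := by
          apply mul_le_mul_of_nonneg_left ih; linarith
      _ = (1 + w z) ^ (k + 1 + 1) := by ring

lemma abs_u_le {t : ℝ} (h : Sm t) {z : ℝ} (hz : 0 ≤ z) (hzt : z ≤ t) (n : ℕ) :
    |u n z| ≤ (1 + w z) ^ n := by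
  cases n with
  | zero => simp [u]
  | succ n =>
    simp only [u]
    rw [abs_of_nonneg (ps_real_nonneg (V_nonneg n) hz)]
    exact ps_V_le h hz hzt n

lemma abs_g_le {t : ℝ} (h : Sm t) {z : ℝ} (hz : 0 ≤ z) (hzt : z ≤ t) (m : ℕ) :
    ∀ n, |g m n z| ≤ 2 ^ m * (1 + w z) ^ (m + n) := by
  have hw : 1 ≤ w z := one_le_w h hz hzt
  induction m with
  | zero => intro n; simpa [g_zero] using abs_u_le h hz hzt n
  | succ m ih =>
    intro n
    rw [g_succ]
    have h1 := ih (n + 1)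
    have h2 := ih n
    have h3 : (1 + w z) ^ (m + n) ≤ (1 + w z) ^ (m + 1 + n) :=
      pow_le_pow_right₀ (by linarith) (by omega)
    have h4 : m + (n + 1) = m + 1 + n := by omega
    rw [h4] at h1
    calc |g m (n + 1) z - g m n z| ≤ |g m (n + 1) z| + |g m n z| := abs_sub _ _
      _ ≤ 2 ^ m * (1 + w z) ^ (m + 1 + n) + 2 ^ m * (1 + w z) ^ (m + 1 + n) := by
          have : (0 : ℝ) ≤ 2 ^ m := by positivity
          nlinarith
      _ = 2 ^ (m + 1) * (1 + w z) ^ (m + 1 + n) := by ring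

lemma abs_kk_le {t : ℝ} (h : Sm t) {z : ℝ} (hz : 0 ≤ z) (hzt : z ≤ t) (m : ℕ) :
    |kk m z| ≤ (2 * (1 + w z)) ^ m := by
  have := abs_g_le h hz hzt m 0
  rw [kk, mul_pow]
  simpa using this

lemma w_mono {t : ℝ} (h : Sm t) {y z : ℝ} (hy : 0 ≤ y) (hyz : y ≤ z) (hzt : z ≤ t) : w y ≤ w z :=
  ps_real_mono (V_nonneg 0) hy hyz (h.mono (hy.trans hyz) hzt).2

lemma th_nonneg {z : ℝ} (hz : 0 ≤ z) : 0 ≤ th z := ps_real_nonneg thc_nonneg hz

lemma Sm.sth2 {t : ℝ} (h : Sm t) : Summable fun n => thc n * t ^ n := by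
  refine h.sth.congr (fun n => ?_)
  rw [abs_of_nonneg (thc_nonneg n)]

lemma th_mono {t : ℝ} (h : Sm t) {y z : ℝ} (hy : 0 ≤ y) (hyz : y ≤ z) (hzt : z ≤ t) : th y ≤ th z :=
  ps_real_mono thc_nonneg hy hyz (Sm.sth2 (h.mono (hy.trans hyz) hzt))

lemma abs_TT_le {t : ℝ} (h : Sm t) {z : ℝ} (hz : 0 ≤ z) (hzt : z ≤ t) (n : ℕ) :
    |TT n z| ≤ Real.exp (th z) * (2 * (1 + w z)) ^ n := by
  have hw : 1 ≤ w z := one_le_w h hz hzt
  have hth := th_nonneg hz
  rw [TT]
  refine (Finset.abs_sum_le_sum_abs _ _).trans ?_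
  have h1 : ∀ p ∈ antidiagonal n, |cc p.1 z * kk p.2 z| ≤
      th z ^ p.1 / (p.1.factorial : ℝ) * (2 * (1 + w z)) ^ n := by
    intro p hp
    rw [Finset.HasAntidiagonal.mem_antidiagonal] at hp
    rw [abs_mul]
    have e1 : |cc p.1 z| = th z ^ p.1 / (p.1.factorial : ℝ) := by
      rw [cc, abs_div, abs_pow, abs_neg, abs_of_nonneg hth, abs_of_nonneg (by positivity : (0:ℝ) ≤ (p.1.factorial : ℝ))]
    rw [e1]
    refine mul_le_mul_of_nonneg_left ?_ (by positivity)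
    refine (abs_kk_le h hz hzt p.2).trans ?_
    exact pow_le_pow_right₀ (by linarith) (by omega)
  refine (Finset.sum_le_sum h1).trans ?_
  rw [← Finset.sum_mul]
  refine mul_le_mul_of_nonneg_right ?_ (by positivity)
  have h2 : ∑ p ∈ antidiagonal n, th z ^ p.1 / (p.1.factorial : ℝ) =
      ∑ k ∈ range n.succ, th z ^ k / (k.factorial : ℝ) :=
    Finset.Nat.sum_antidiagonal_eq_sum_range_succ_mk (fun p => th z ^ p.1 / (p.1.factorial : ℝ)) n
  rw [h2]
  exact Real.sum_le_exp_of_nonneg hth _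

end Pool.Agent.Sorted22
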