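import Pool.Agent.Sorted22.IntEq

/-! The kernel of the integral equation and the integral equation itself. -/

open Finset MeasureTheory Filter Topology

namespace Pool.Agent.Sorted22

open Pool.Agent.Sorted94

/-- the kernel `k(a,t) = ∑ a^{m+1} t^m / ((m+1)! m!)` -/
noncomputable def ker (a t : ℝ) : ℝ :=
  ∑' m : ℕ, a ^ (m + 1) * t ^ m / ((m + 1).factorial * m.factorial)

/-- coefficients of the one variable function -/
noncomputable def hc (m : ℕ) : ℝ := 1 / ((m + 1).factorial * m.factorial)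

lemma hc_nonneg (m : ℕ) : 0 ≤ hc m := by unfold hc; positivity

lemma hc_le (m : ℕ) : hc m ≤ 1 / (m.factorial : ℝ) := by
  unfold hc
  have h1 : (0 : ℝ) < m.factorial := by positivity
  have h2 : (1 : ℝ) ≤ (m + 1).factorial := by exact_mod_cast Nat.succ_le_of_lt (Nat.factorial_pos _)
  apply one_div_le_one_div_of_le h1
  nlinarith

lemma summable_hc (t : ℝ) (ht : 0 ≤ t) : Summable fun n => |hc n| * t ^ n := by
  refine Summable.of_nonneg_of_le (fun n => by positivity) (fun n => ?_)
    (Real.summable_pow_div_factorial t)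
  rw [abs_of_nonneg (hc_nonneg n)]
  calc hc n * t ^ n ≤ 1 / (n.factorial : ℝ) * t ^ n := by
        apply mul_le_mul_of_nonneg_right (hc_le n) (by positivity)
    _ = t ^ n / n.factorial := by ring

/-- one variable function -/
noncomputable def hh (s : ℝ) : ℝ := ps ℝ hc s

lemma ker_eq (a t : ℝ) : ker a t = a * hh (a * t) := by
  unfold ker hh ps
  rw [← tsum_mul_left]
  refine tsum_congr (fun m => ?_)
  simp only [hc, RCLike.ofReal_real_eq_id, id_eq]
  rw [mul_pow, pow_succ]
  ring

/-- derivative of `hh` -/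
noncomputable def hh1 (s : ℝ) : ℝ := ps ℝ (fun n => ((n : ℝ) + 1) * hc (n + 1)) s

lemma hasDerivAt_hh (s : ℝ) : HasDerivAt hh (hh1 s) s := by
  have hs : ‖s‖ < |s| + 1 := by rw [Real.norm_eq_abs]; linarith
  exact hasDerivAt_ps (𝕜 := ℝ) (summable_hc (|s| + 1) (by positivity)) s hs

lemma summable_hc1 (t : ℝ) (ht : 0 ≤ t) : Summable fun n : ℕ => |((n : ℝ) + 1) * hc (n + 1)| * t ^ n := by
  refine Summable.of_nonneg_of_le (fun n => by positivity) (fun n => ?_)
    (Real.summable_pow_div_factorial t)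
  have h0 : 0 ≤ ((n : ℝ) + 1) * hc (n + 1) := mul_nonneg (by positivity) (hc_nonneg _)
  rw [abs_of_nonneg h0]
  have h1 := hc_le (n + 1)
  have h2 : ((n : ℝ) + 1) * hc (n + 1) ≤ 1 / (n.factorial : ℝ) := by
    calc ((n : ℝ) + 1) * hc (n + 1) ≤ ((n : ℝ) + 1) * (1 / ((n + 1).factorial : ℝ)) :=
          mul_le_mul_of_nonneg_left h1 (by positivity)
      _ = 1 / (n.factorial : ℝ) := by
          rw [Nat.factorial_succ]; push_cast; field_simp
  calc ((n : ℝ) + 1) * hc (n + 1) * t ^ n ≤ 1 / (n.factorial : ℝ) * t ^ n :=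
        mul_le_mul_of_nonneg_right h2 (by positivity)
    _ = t ^ n / n.factorial := by ring

lemma continuous_hh : Continuous hh := by
  have : Differentiable ℝ hh := fun s => (hasDerivAt_hh s).differentiableAt
  exact this.continuous

lemma continuous_hh1 : Continuous hh1 := by
  have : Differentiable ℝ hh1 := by
    intro s
    have hs : ‖s‖ < |s| + 1 := by rw [Real.norm_eq_abs]; linarith
    exact (hasDerivAt_ps (𝕜 := ℝ) (summable_hc1 (|s| + 1) (by positivity)) s hs).differentiableAt
  exact this.continuous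

lemma continuous_ker : Continuous (fun p : ℝ × ℝ => ker p.1 p.2) := by
  have : (fun p : ℝ × ℝ => ker p.1 p.2) = fun p => p.1 * hh (p.1 * p.2) := by
    funext p; exact ker_eq _ _
  rw [this]
  exact continuous_fst.mul (continuous_hh.comp (continuous_fst.mul continuous_snd))

/-! ### the integral equation -/

lemma contOn_of_Sm {t : ℝ} (h : Sm t) {x : ℝ} (hx : x < t) {f : ℝ → ℝ} {f' : ℝ → ℝ}
    (hf : ∀ z, ‖z‖ < t → HasDerivAt f (f' z) z) : ContinuousOn f (Set.Icc 0 x) := by
  intro y hy
  refine (hf y ?_).continuousAt.continuousWithinAt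
  rw [Real.norm_of_nonneg hy.1]
  exact hy.2.trans_lt hx

/-- telescoping sum -/
noncomputable def SS (x : ℝ) (M : ℕ) (y : ℝ) : ℝ :=
  ∑ m ∈ range M, (-1) ^ m * ((x - y) ^ m / (m.factorial : ℝ)) * PP m y

lemma hasDerivAt_SS {t : ℝ} (h : Sm t) (x : ℝ) (M : ℕ) (y : ℝ) (hy : ‖y‖ < t) :
    HasDerivAt (SS x (M + 1)) ((-1) ^ (M + 1) * ((x - y) ^ M / (M.factorial : ℝ)) * PP (M + 1) y
      - psi y * ∑ m ∈ range (M + 1), th y ^ (m + 1) * (x - y) ^ m / ((m + 1).factorial * m.factorial)) y := by
  induction M with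
  | zero =>
    have h1 : SS x (0 + 1) = PP 0 := by
      funext z
      simp [SS]
    rw [h1]
    refine (hasDerivAt_PP h 0 y hy).congr_deriv ?_
    simp [cc_one]
    ring
  | succ M ih =>
    have h1 : SS x (M + 1 + 1) = fun z => SS x (M + 1) z +
        (-1) ^ (M + 1) * ((x - z) ^ (M + 1) / ((M + 1).factorial : ℝ)) * PP (M + 1) z := by
      funext z
      simp only [SS]
      rw [Finset.sum_range_succ _ (M + 1)]
    rw [h1]
    have e1 : HasDerivAt (fun z : ℝ => x - z) (-1) y := by
      simpa using (hasDerivAt_id y).const_sub x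
    have e2 := ((e1.pow (M + 1)).div_const ((M + 1).factorial : ℝ)).const_mul ((-1 : ℝ) ^ (M + 1))
    have e3 := ih.add (e2.mul (hasDerivAt_PP h (M + 1) y hy))
    refine e3.congr_deriv ?_
    rw [Finset.sum_range_succ _ (M + 1)]
    have f1 : ((M.factorial : ℕ) : ℝ) ≠ 0 := by positivity
    have f2 : ((M : ℝ) + 1) ≠ 0 := by positivity
    have f3 : (((M + 1).factorial : ℕ) : ℝ) = ((M : ℝ) + 1) * M.factorial := by
      rw [Nat.factorial_succ]; push_cast; ring
    have f4 : (-1 : ℝ) ^ (M + 1) * cc (M + 1 + 1) y = -(th y ^ (M + 1 + 1) / ((M + 1 + 1).factorial : ℝ)) := by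
      rw [cc, neg_pow (th y) (M + 1 + 1)]
      have : (-1 : ℝ) ^ (M + 1) * (-1) ^ (M + 1) = 1 := by
        rw [← mul_pow]; simp
      have h5 : (-1 : ℝ) ^ (M + 1 + 1) = (-1) ^ (M + 1) * (-1) := pow_succ _ _
      rw [h5]
      have f5 : (((M + 1 + 1).factorial : ℕ) : ℝ) ≠ 0 := by positivity
      field_simp
      linear_combination (-(th y ^ (M + 1 + 1))) * this
    have f6 : (-1 : ℝ) ^ (M + 1) * ((x - y) ^ (M + 1) / ((M + 1).factorial : ℝ)) * (psi y * cc (M + 1 + 1) y)
        = -(psi y * (th y ^ (M + 1 + 1) * (x - y) ^ (M + 1) / ((M + 1 + 1).factorial * (M + 1).factorial))) := by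
      calc _ = ((-1 : ℝ) ^ (M + 1) * cc (M + 1 + 1) y) * ((x - y) ^ (M + 1) / ((M + 1).factorial : ℝ)) * psi y := by ring
        _ = _ := by rw [f4]; ring
    have f7 : (-1 : ℝ) ^ (M + 1) * (((M + 1 : ℕ) : ℝ) * (x - y) ^ (M + 1 - 1) * (-1) / ((M + 1).factorial : ℝ))
        = -((-1 : ℝ) ^ (M + 1) * ((x - y) ^ M / (M.factorial : ℝ))) := by
      rw [f3, Nat.add_sub_cancel]; push_cast; field_simp
    have f8 : (-1 : ℝ) ^ (M + 1 + 1) = - (-1) ^ (M + 1) := by rw [pow_succ (-1 : ℝ) (M + 1)]; ring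
    have f9 : ((fun z : ℝ => x - z) ^ (M + 1)) y = (x - y) ^ (M + 1) := rfl
    rw [f7, f8, mul_add (psi y), f9]
    linear_combination f6

/-- the approximate integral equation -/
lemma approx_eq {t : ℝ} (h : Sm t) {x : ℝ} (hx0 : 0 ≤ x) (hx : x < t) (M : ℕ) :
    psi x = 1 + (∫ y in (0:ℝ)..x, (-1) ^ (M + 1) * ((x - y) ^ M / (M.factorial : ℝ)) * PP (M + 1) y)
      - ∑ m ∈ range (M + 1), ∫ y in (0:ℝ)..x,
        psi y * (th y ^ (m + 1) * (x - y) ^ m / ((m + 1).factorial * m.factorial)) := by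
  have hd : ∀ y ∈ Set.uIcc 0 x, ‖y‖ < t := by
    intro y hy
    rw [Set.uIcc_of_le hx0] at hy
    rw [Real.norm_of_nonneg hy.1]
    exact hy.2.trans_lt hx
  have hcψ : ContinuousOn psi (Set.uIcc 0 x) := by
    rw [Set.uIcc_of_le hx0]; exact contOn_of_Sm h hx (fun z hz => hasDerivAt_psi h z hz)
  have hcθ : ContinuousOn th (Set.uIcc 0 x) := by
    rw [Set.uIcc_of_le hx0]; exact contOn_of_Sm h hx (fun z hz => hasDerivAt_th h z hz)
  have hcP : ContinuousOn (PP (M + 1)) (Set.uIcc 0 x) := by
    rw [Set.uIcc_of_le hx0]; exact contOn_of_Sm h hx (fun z hz => hasDerivAt_PP h (M + 1) z hz)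
  have i1 : IntervalIntegrable (fun y => (-1) ^ (M + 1) * ((x - y) ^ M / (M.factorial : ℝ)) * PP (M + 1) y)
      volume 0 x := by
    apply ContinuousOn.intervalIntegrable
    exact (by fun_prop : Continuous fun y : ℝ => (-1) ^ (M + 1) * ((x - y) ^ M / (M.factorial : ℝ))).continuousOn.mul hcP
  have i2 : ∀ m : ℕ, IntervalIntegrable (fun y => psi y * (th y ^ (m + 1) * (x - y) ^ m / ((m + 1).factorial * m.factorial)))
      volume 0 x := by
    intro m
    apply ContinuousOn.intervalIntegrable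
    refine hcψ.mul (((hcθ.pow (m + 1)).mul ?_).div_const _)
    exact (by fun_prop : Continuous fun y : ℝ => (x - y) ^ m).continuousOn
  have i3 : IntervalIntegrable (fun y => ∑ m ∈ range (M + 1), psi y * (th y ^ (m + 1) * (x - y) ^ m / ((m + 1).factorial * m.factorial)))
      volume 0 x := by
    have := IntervalIntegrable.sum (μ := volume) (a := 0) (b := x) (range (M + 1)) (f := fun m y => psi y * (th y ^ (m + 1) * (x - y) ^ m / ((m + 1).factorial * m.factorial)))
      (fun m _ => i2 m)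
    refine this.congr ?_
    intro y _
    simp
  have e1 : ∀ y, psi y * ∑ m ∈ range (M + 1), th y ^ (m + 1) * (x - y) ^ m / ((m + 1).factorial * m.factorial)
      = ∑ m ∈ range (M + 1), psi y * (th y ^ (m + 1) * (x - y) ^ m / ((m + 1).factorial * m.factorial)) := by
    intro y; rw [Finset.mul_sum]
  have h1 := intervalIntegral.integral_eq_sub_of_hasDerivAt (a := 0) (b := x)
    (fun y hy => hasDerivAt_SS h x M y (hd y hy)) (by
      simp only [e1]
      exact i1.sub i3)
  simp only [e1] at h1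
  rw [intervalIntegral.integral_sub i1 i3, intervalIntegral.integral_finset_sum (fun m _ => i2 m)] at h1
  have h2 : SS x (M + 1) x = psi x := by
    simp only [SS]
    rw [Finset.sum_range_succ']
    simp [PP_zero]
  have h3 : SS x (M + 1) 0 = 1 := by
    simp only [SS]
    rw [Finset.sum_range_succ']
    have : ∀ m ∈ range M, (-1 : ℝ) ^ (m + 1) * ((x - 0) ^ (m + 1) / ((m + 1).factorial : ℝ)) * PP (m + 1) 0 = 0 := by
      intro m _
      rw [PP_at_zero, mul_zero]
    rw [Finset.sum_eq_zero this]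
    simp [PP_zero, psi_zero]
  rw [h2, h3] at h1
  linarith

lemma psi_le {x y : ℝ} (hy : 0 ≤ y) (hyx : y ≤ x) : psi y ≤ Real.exp x := by
  rw [psi]
  apply Real.exp_le_exp.mpr
  have := th_nonneg hy
  linarith

lemma psi_pos (x : ℝ) : 0 < psi x := Real.exp_pos _

/-- the remainder tends to zero -/
lemma remainder_tendsto {t : ℝ} (h : Sm t) {x : ℝ} (hx0 : 0 ≤ x) (hx : x < t) :
    Tendsto (fun M : ℕ => ∫ y in (0:ℝ)..x, (-1) ^ (M + 1) * ((x - y) ^ M / (M.factorial : ℝ)) * PP (M + 1) y)
      atTop (𝓝 0) := by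
  set B : ℝ := 2 * (1 + w x) with hB
  have hB1 : 0 ≤ B := by
    have := one_le_w h hx0 hx.le
    have h2 : w x = ps ℝ (V 0) x := rfl
    rw [hB, h2]; linarith
  have hb : ∀ M : ℕ, ‖∫ y in (0:ℝ)..x, (-1) ^ (M + 1) * ((x - y) ^ M / (M.factorial : ℝ)) * PP (M + 1) y‖ ≤
      (Real.exp x * Real.exp (th x) * B * x) * ((x * B) ^ M / (M.factorial : ℝ)) := by
    intro M
    have h1 : ∀ y ∈ Set.uIoc 0 x, ‖(-1) ^ (M + 1) * ((x - y) ^ M / (M.factorial : ℝ)) * PP (M + 1) y‖ ≤
        x ^ M / (M.factorial : ℝ) * (Real.exp x * (Real.exp (th x) * B ^ (M + 1))) := by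
      intro y hy
      rw [Set.uIoc_of_le hx0] at hy
      have hy0 := hy.1.le
      have hyx := hy.2
      have hyt := hyx.trans hx.le
      rw [norm_mul, norm_mul, norm_pow, norm_neg, norm_one, one_pow, one_mul, norm_div, norm_pow,
        Real.norm_of_nonneg (by linarith : 0 ≤ x - y), Real.norm_of_nonneg (by positivity : (0:ℝ) ≤ (M.factorial : ℝ))]
      have hw1 := w_mono h hy0 hyx hx.le
      have hw0 : 1 ≤ w y := one_le_w h hy0 hyt
      have hth := th_mono h hy0 hyx hx.le
      have h2 : ‖PP (M + 1) y‖ ≤ Real.exp x * (Real.exp (th x) * B ^ (M + 1)) := by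
        rw [PP, norm_mul, Real.norm_of_nonneg (psi_pos y).le]
        refine mul_le_mul (psi_le hy0 hyx) ?_ (norm_nonneg _) (Real.exp_pos _).le
        refine (abs_TT_le h hy0 hyt (M + 1)).trans ?_
        refine mul_le_mul (Real.exp_le_exp.mpr hth) ?_ (by positivity) (Real.exp_pos _).le
        apply pow_le_pow_left₀ (by linarith)
        rw [hB]; linarith
      refine mul_le_mul ?_ h2 (norm_nonneg _) (by positivity)
      apply div_le_div_of_nonneg_right _ (by positivity)
      exact pow_le_pow_left₀ (by linarith) (by linarith) M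
    have h2 := intervalIntegral.norm_integral_le_of_norm_le_const h1
    rw [sub_zero, abs_of_nonneg hx0] at h2
    refine h2.trans (le_of_eq ?_)
    rw [mul_pow x B, pow_succ B M]
    ring
  have hlim : Tendsto (fun M : ℕ => (Real.exp x * Real.exp (th x) * B * x) * ((x * B) ^ M / (M.factorial : ℝ)))
      atTop (𝓝 0) := by
    have := (FloorSemiring.tendsto_pow_div_factorial_atTop (x * B)).const_mul (Real.exp x * Real.exp (th x) * B * x)
    simpa using this
  exact squeeze_zero_norm hb hlim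

/-- summation of the kernel integrals -/
lemma hasSum_kernel {t : ℝ} (h : Sm t) {x : ℝ} (hx0 : 0 ≤ x) (hx : x < t) :
    HasSum (fun m : ℕ => ∫ y in (0:ℝ)..x,
        psi y * (th y ^ (m + 1) * (x - y) ^ m / ((m + 1).factorial * m.factorial)))
      (∫ y in (0:ℝ)..x, psi y * ker (th y) (x - y)) := by
  have hcψ : ContinuousOn psi (Set.Icc 0 x) := contOn_of_Sm h hx (fun z hz => hasDerivAt_psi h z hz)
  have hcθ : ContinuousOn th (Set.Icc 0 x) := contOn_of_Sm h hx (fun z hz => hasDerivAt_th h z hz)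
  have hsub : Set.uIoc 0 x ⊆ Set.Icc 0 x := by
    rw [Set.uIoc_of_le hx0]; exact Set.Ioc_subset_Icc_self
  have hnb : ∀ (m : ℕ) (y : ℝ), y ∈ Set.Icc 0 x →
      ‖psi y * (th y ^ (m + 1) * (x - y) ^ m / ((m + 1).factorial * m.factorial))‖ ≤
      Real.exp x * th x * ((th x * x) ^ m / (m.factorial : ℝ)) := by
    intro m y hy
    have hy0 := hy.1
    have hyx := hy.2
    have hth := th_mono h hy0 hyx hx.le
    have hth0 := th_nonneg hy0
    have hp : 0 ≤ psi y * (th y ^ (m + 1) * (x - y) ^ m / ((m + 1).factorial * m.factorial)) := by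
      have h1 := (psi_pos y).le
      have h2 : 0 ≤ x - y := by linarith
      positivity
    rw [Real.norm_of_nonneg hp]
    have h1 : th y ^ (m + 1) * (x - y) ^ m / ((m + 1).factorial * m.factorial) ≤
        th x * ((th x * x) ^ m / (m.factorial : ℝ)) := by
      have h2 : th y ^ (m + 1) * (x - y) ^ m ≤ th x ^ (m + 1) * x ^ m := by
        apply mul_le_mul (pow_le_pow_left₀ hth0 hth _) (pow_le_pow_left₀ (by linarith) (by linarith) _)
          (pow_nonneg (by linarith) _) (pow_nonneg (hth0.trans hth) _)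
      have h3 : (1 : ℝ) ≤ (m + 1).factorial := by exact_mod_cast Nat.succ_le_of_lt (Nat.factorial_pos _)
      have h4 : (0 : ℝ) < m.factorial := by positivity
      have h5 : 0 ≤ th x ^ (m + 1) * x ^ m := mul_nonneg (pow_nonneg (hth0.trans hth) _) (pow_nonneg hx0 _)
      calc th y ^ (m + 1) * (x - y) ^ m / ((m + 1).factorial * m.factorial)
          ≤ th x ^ (m + 1) * x ^ m / (1 * m.factorial) := by gcongr
        _ = th x * ((th x * x) ^ m / (m.factorial : ℝ)) := by
            rw [one_mul, mul_pow, pow_succ]; ring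
    calc psi y * (th y ^ (m + 1) * (x - y) ^ m / ((m + 1).factorial * m.factorial))
        ≤ Real.exp x * (th x * ((th x * x) ^ m / (m.factorial : ℝ))) := by
          apply mul_le_mul (psi_le hy0 hyx) h1 _ (Real.exp_pos _).le
          have h2 : 0 ≤ x - y := by linarith
          positivity
      _ = _ := by ring
  refine intervalIntegral.hasSum_integral_of_dominated_convergence
    (bound := fun m _ => Real.exp x * th x * ((th x * x) ^ m / (m.factorial : ℝ))) ?_ ?_ ?_ ?_ ?_
  · intro m
    have hc : ContinuousOn (fun y => psi y * (th y ^ (m + 1) * (x - y) ^ m / ((m + 1).factorial * m.factorial)))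
        (Set.Icc 0 x) := by
      refine hcψ.mul (((hcθ.pow (m + 1)).mul ?_).div_const _)
      exact (by fun_prop : Continuous fun y : ℝ => (x - y) ^ m).continuousOn
    exact (hc.mono hsub).aestronglyMeasurable measurableSet_uIoc
  · intro m
    filter_upwards with y hy
    exact hnb m y (hsub hy)
  · filter_upwards with y _
    exact (Real.summable_pow_div_factorial (th x * x)).mul_left _
  · exact intervalIntegrable_const
  · filter_upwards with y hy
    have hsum : Summable (fun m : ℕ => psi y * (th y ^ (m + 1) * (x - y) ^ m / ((m + 1).factorial * m.factorial))) :=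
      Summable.of_norm_bounded ((Real.summable_pow_div_factorial (th x * x)).mul_left (Real.exp x * th x))
        (fun m => hnb m y (hsub hy))
    have := hsum.hasSum
    rw [tsum_mul_left] at this
    exact this

/-- **the integral equation** -/
theorem int_eq' {t : ℝ} (h : Sm t) {x : ℝ} (hx0 : 0 ≤ x) (hx : x < t) :
    psi x = 1 - ∫ y in (0:ℝ)..x, psi y * ker (th y) (x - y) := by
  have h1 := remainder_tendsto h hx0 hx
  have h2 := (hasSum_kernel h hx0 hx).tendsto_sum_nat.comp (tendsto_add_atTop_nat 1)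
  have h3 : Tendsto (fun _ : ℕ => psi x) atTop
      (𝓝 (1 + 0 - ∫ y in (0:ℝ)..x, psi y * ker (th y) (x - y))) := by
    refine ((h1.const_add 1).sub h2).congr (fun M => ?_)
    exact (approx_eq h hx0 hx M).symm
  have h4 := tendsto_nhds_unique h3 tendsto_const_nhds
  linarith

theorem int_eq {x : ℝ} (hx0 : 0 ≤ x) (hx : x < Rad) :
    Real.exp (x - th x) = 1 - ∫ y in (0:ℝ)..x, Real.exp (y - th y) * ker (th y) (x - y) := by
  obtain ⟨t, ht, hS⟩ := exists_Sm hx
  exact int_eq' hS hx0 ht

end Pool.Agent.Sorted22
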